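import Mathlib

/-!
# Local statistics of continuously varying level sequences: Baire category

`stat G x T` is `1/T` times the sum of `G k x` over the `n`-tuples `k` of indices with
`x (k i) ≤ T` for all `i`.
-/

set_option autoImplicit false

open Set Filter Topology

noncomputable section

namespace Pool.Agent.Q93.BGS

/-- the statistic with the observables `G k` -/
def stat {n : ℕ} (G : (Fin n → ℕ) → (ℕ → ℝ) → ℝ) (x : ℕ → ℝ) (T : ℝ) : ℝ :=
  T⁻¹ * ∑ᶠ k ∈ {k : Fin n → ℕ | ∀ i, x (k i) ≤ T}, G k x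

section

variable {B : Type} [TopologicalSpace B] {y : B → ℕ → ℝ} {n : ℕ}
  {G : (Fin n → ℕ) → (ℕ → ℝ) → ℝ}

/-- the tuples below `T` -/
def idx (n : ℕ) (x : ℕ → ℝ) (T : ℝ) : Set (Fin n → ℕ) := {k | ∀ i, x (k i) ≤ T}

theorem idx_congr {x x' : ℕ → ℝ} {T T' : ℝ} (h : ∀ j, x j ≤ T ↔ x' j ≤ T') :
    idx n x T = idx n x' T' := by
  ext k
  exact forall_congr' fun i => h (k i)

theorem idx_finite {x : ℕ → ℝ} (hx : Tendsto x atTop atTop) (T : ℝ) : (idx n x T).Finite := by
  obtain ⟨J, hJ⟩ := eventually_atTop.1 (hx.eventually_gt_atTop T)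
  refine (Set.Finite.pi' (t := fun _ : Fin n => Set.Iio J) fun _ => Set.finite_Iio J).subset ?_
  intro k hk i
  by_contra h
  have h1 := hJ (k i) (not_lt.1 h)
  exact absurd (hk i) (not_le.2 h1)

/-- no level in `(T, T']` for `T'` slightly larger than `T` -/
theorem gap {x : ℕ → ℝ} (hx : Tendsto x atTop atTop) (T : ℝ) :
    ∀ᶠ T' in 𝓝[>] T, ∀ j, (x j ≤ T' ↔ x j ≤ T) ∧ x j ≠ T' := by
  obtain ⟨J, hJ⟩ := eventually_atTop.1 (hx.eventually_gt_atTop (T + 1))
  have h1 : ∀ᶠ T' in 𝓝[>] T, ∀ j ∈ Finset.range J, T < x j → T' < x j := by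
    rw [Filter.eventually_all_finset]
    intro j _
    by_cases h : T < x j
    · filter_upwards [nhdsWithin_le_nhds (Iio_mem_nhds h)] with T' h2 _
      exact h2
    · exact Eventually.of_forall fun T' h2 => absurd h2 h
  have h2 : ∀ᶠ T' in 𝓝[>] T, T' < T + 1 :=
    nhdsWithin_le_nhds (Iio_mem_nhds (by linarith))
  filter_upwards [h1, h2, self_mem_nhdsWithin] with T' h3 h4 h5 j
  have h5' : T < T' := h5
  have h6 : T < x j → T' < x j := by
    intro h7
    rcases lt_or_ge j J with h8 | h8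
    · exact h3 j (Finset.mem_range.2 h8) h7
    · linarith [hJ j h8]
  refine ⟨⟨fun h => ?_, fun h => by linarith⟩, ?_⟩
  · by_contra h7
    linarith [h6 (not_le.1 h7)]
  · intro h
    have h8 : T < x j := by rw [h]; exact h5'
    linarith [h6 h8]

/-- levels near a parameter -/
theorem idx_near (hc : ∀ j, Continuous fun b => y b j) (hm : ∀ b, Monotone (y b))
    (ht : ∀ b, Tendsto (y b) atTop atTop) (b : B) {T : ℝ} (hT : ∀ j, y b j ≠ T) :
    ∀ᶠ b' in 𝓝 b, idx n (y b') T = idx n (y b) T := by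
  obtain ⟨J, hJ⟩ := eventually_atTop.1 ((ht b).eventually_gt_atTop T)
  have h1 : ∀ᶠ b' in 𝓝 b, ∀ j ∈ Finset.range (J + 1), (y b' j ≤ T ↔ y b j ≤ T) := by
    rw [Filter.eventually_all_finset]
    intro j _
    rcases lt_or_gt_of_ne (hT j) with h | h
    · filter_upwards [(hc j).continuousAt.eventually_lt_const h] with b' h2
      exact ⟨fun _ => h.le, fun _ => h2.le⟩
    · filter_upwards [(hc j).continuousAt.eventually_const_lt h] with b' h2
      exact ⟨fun h3 => absurd h3 (not_le.2 h2), fun h3 => absurd h3 (not_le.2 h)⟩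
  filter_upwards [h1] with b' h2
  refine idx_congr fun j => ?_
  rcases lt_or_ge j (J + 1) with h3 | h3
  · exact h2 j (Finset.mem_range.2 h3)
  · have h4 : T < y b j := hJ j (by omega)
    have h5 : T < y b' J := by
      have h6 := h2 J (Finset.mem_range.2 (by omega))
      by_contra h7
      exact absurd (h6.1 (not_lt.1 h7)) (not_le.2 (hJ J le_rfl))
    have h6 : T < y b' j := h5.trans_le (hm b' (by omega))
    exact ⟨fun h => absurd h (not_le.2 h6), fun h => absurd h (not_le.2 h4)⟩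

theorem stat_eq {x : ℕ → ℝ} (hx : Tendsto x atTop atTop) (T : ℝ) :
    stat G x T = T⁻¹ * ∑ k ∈ (idx_finite (n := n) hx T).toFinset, G k x := by
  unfold stat
  congr 1
  exact finsum_mem_eq_finite_toFinset_sum _ (idx_finite hx T)

theorem stat_contAt (hc : ∀ j, Continuous fun b => y b j) (hm : ∀ b, Monotone (y b))
    (ht : ∀ b, Tendsto (y b) atTop atTop) (hG : ∀ k, Continuous (G k)) (b : B) {T : ℝ}
    (hT : ∀ j, y b j ≠ T) : ContinuousAt (fun b' => stat G (y b') T) b := by
  have h1 : (fun b' => stat G (y b') T) =ᶠ[𝓝 b]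
      fun b' => T⁻¹ * ∑ k ∈ (idx_finite (n := n) (ht b) T).toFinset, G k (y b') := by
    filter_upwards [idx_near (n := n) hc hm ht b hT] with b' h2
    rw [stat_eq (ht b')]
    congr 1
    refine Finset.sum_congr ?_ fun _ _ => rfl
    ext k
    rw [Set.Finite.mem_toFinset, Set.Finite.mem_toFinset, h2]
  rw [continuousAt_congr h1]
  refine ContinuousAt.mul continuousAt_const ?_
  refine Continuous.continuousAt (continuous_finsetSum _ fun k _ => ?_)
  exact (hG k).comp (continuous_pi hc)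

/-- right continuity in `T` -/
theorem stat_right {x : ℕ → ℝ} (hx : Tendsto x atTop atTop) {T : ℝ} (hT : 0 < T) :
    Tendsto (fun T' => stat G x T') (𝓝[>] T) (𝓝 (stat G x T)) := by
  have h1 : (fun T' => stat G x T') =ᶠ[𝓝[>] T] fun T' => T'⁻¹ * (T * stat G x T) := by
    filter_upwards [gap hx T, self_mem_nhdsWithin] with T' h2 h3
    unfold stat
    have h4 : {k : Fin n → ℕ | ∀ i, x (k i) ≤ T'} = {k : Fin n → ℕ | ∀ i, x (k i) ≤ T} :=
      idx_congr (n := n) fun j => (h2 j).1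
    rw [h4, mul_inv_cancel_left₀ hT.ne']
  refine Tendsto.congr' h1.symm ?_
  have h2 : Tendsto (fun T' : ℝ => T'⁻¹ * (T * stat G x T)) (𝓝[>] T)
      (𝓝 (T⁻¹ * (T * stat G x T))) :=
    ((tendsto_id.mono_left nhdsWithin_le_nhds).inv₀ hT.ne').mul_const _
  rwa [inv_mul_cancel_left₀ hT.ne'] at h2

/-- the parameters for which the statistic is close to `c` from the time `T₀` on form a closed
set -/
theorem isClosed_near (hc : ∀ j, Continuous fun b => y b j) (hm : ∀ b, Monotone (y b))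
    (ht : ∀ b, Tendsto (y b) atTop atTop) (hG : ∀ k, Continuous (G k)) (c ε : ℝ) {T₀ : ℝ}
    (hT₀ : 0 < T₀) : IsClosed {b : B | ∀ T, T₀ ≤ T → |stat G (y b) T - c| ≤ ε} := by
  rw [← closure_subset_iff_isClosed]
  intro b hb T hT
  have hTp : 0 < T := hT₀.trans_le hT
  have h1 : Tendsto (fun T' => |stat G (y b) T' - c|) (𝓝[>] T) (𝓝 |stat G (y b) T - c|) :=
    ((stat_right (ht b) hTp).sub_const c).abs
  refine le_of_tendsto h1 ?_
  filter_upwards [gap (ht b) T, self_mem_nhdsWithin] with T' h2 h3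
  have h3' : T < T' := h3
  have h4 : ContinuousAt (fun b' => |stat G (y b') T' - c|) b :=
    ((stat_contAt hc hm ht hG b fun j => (h2 j).2).sub continuousAt_const).abs
  by_contra h5
  rw [not_le] at h5
  have h6 : ∀ᶠ b' in 𝓝 b, ε < |stat G (y b') T' - c| := h4.eventually_const_lt h5
  have h7 : ∃ᶠ b' in 𝓝 b, b' ∈ {b : B | ∀ T, T₀ ≤ T → |stat G (y b) T - c| ≤ ε} :=
    mem_closure_iff_frequently.1 hb
  obtain ⟨b', h8, h9⟩ := (h7.and_eventually h6).exists
  exact absurd (h8 T' (by linarith)) (not_le.2 h9)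

end

end Pool.Agent.Q93.BGS
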