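import Pool.Agent.Q93.BGS.A

/-!
# Generic convergence and locally uniform convergence of the local statistics
-/

set_option autoImplicit false

open Set Filter Topology

noncomputable section

namespace Pool.Agent.Q93.BGS

/-- `A` is not meagre in any nonempty open set -/
def Thick {B : Type} [TopologicalSpace B] (A : Set B) : Prop :=
  ∀ U : Set B, IsOpen U → U.Nonempty → ¬ IsMeagre (U ∩ A)

section

variable {B : Type} [TopologicalSpace B]

theorem thick_of_residual [BaireSpace B] {A : Set B} (hA : ∀ᶠ b in residual B, b ∈ A) :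
    Thick A := by
  intro U hU hUn hM
  have h1 : IsMeagre Aᶜ := by
    rw [IsMeagre, compl_compl]
    exact hA
  have h2 : IsMeagre U := by
    refine (hM.union h1).mono fun b hb => ?_
    by_cases h : b ∈ A
    · exact Or.inl ⟨hb, h⟩
    · exact Or.inr h
  rw [IsMeagre] at h2
  have h3 := dense_of_mem_residual h2
  obtain ⟨b, hb, hb'⟩ := h3.inter_open_nonempty U hU hUn
  exact hb' hb

/-- a countable union of closed sets which contains a thick set has a dense interior part -/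
theorem dense_int {ι : Type} [Countable ι] {A : Set B} (hA : Thick A) {F : ι → Set B}
    (hF : ∀ i, IsClosed (F i)) (hAF : A ⊆ ⋃ i, F i) : Dense (⋃ i, interior (F i)) := by
  rw [dense_iff_inter_open]
  intro U hU hUn
  by_contra hne
  rw [Set.not_nonempty_iff_eq_empty] at hne
  refine hA U hU hUn ?_
  have h1 : U ∩ A ⊆ ⋃ i, frontier (F i) := by
    rintro b ⟨hb, hbA⟩
    obtain ⟨i, hi⟩ := Set.mem_iUnion.1 (hAF hbA)
    refine Set.mem_iUnion.2 ⟨i, ?_⟩
    rw [(hF i).frontier_eq]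
    refine ⟨hi, fun h => ?_⟩
    have h2 : b ∈ U ∩ ⋃ i, interior (F i) := ⟨hb, Set.mem_iUnion.2 ⟨i, h⟩⟩
    rw [hne] at h2
    exact h2
  refine IsMeagre.mono h1 ?_
  refine isMeagre_iUnion fun i => IsNowhereDense.isMeagre ?_
  rw [IsClosed.isNowhereDense_iff isClosed_frontier]
  exact interior_frontier (hF i)

variable {y : B → ℕ → ℝ} {n : ℕ} {G : (Fin n → ℕ) → (ℕ → ℝ) → ℝ}

/-- the statistic is within `ε` of `c` from the time `N + 1` on -/
def Near (G : (Fin n → ℕ) → (ℕ → ℝ) → ℝ) (y : B → ℕ → ℝ) (c ε : ℝ) (N : ℕ) : Set B :=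
  {b | ∀ T : ℝ, (N : ℝ) + 1 ≤ T → |stat G (y b) T - c| ≤ ε}

theorem ev_iff (c ε : ℝ) (b : B) :
    (∀ᶠ T in atTop, |stat G (y b) T - c| ≤ ε) ↔ ∃ N, b ∈ Near G y c ε N := by
  constructor
  · intro h
    obtain ⟨T₀, h1⟩ := eventually_atTop.1 h
    obtain ⟨N, hN⟩ := exists_nat_ge T₀
    exact ⟨N, fun T hT => h1 T (by linarith)⟩
  · rintro ⟨N, h⟩
    exact (eventually_ge_atTop ((N : ℝ) + 1)).mono fun T hT => h T hT

/-- near an interior point -/
theorem joint_of_interior {c ε : ℝ} {N : ℕ} {b : B} (hb : b ∈ interior (Near G y c ε N)) :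
    ∀ᶠ p : ℝ × B in atTop ×ˢ 𝓝 b, |stat G (y p.2) p.1 - c| ≤ ε := by
  have h1 : ∀ᶠ b' in 𝓝 b, b' ∈ Near G y c ε N := mem_interior_iff_mem_nhds.1 hb
  have h2 : ∀ᶠ T : ℝ in atTop, (N : ℝ) + 1 ≤ T := eventually_ge_atTop _
  filter_upwards [h2.prod_mk h1] with p hp
  exact hp.2 p.1 hp.1

theorem joint_of_all {c : ℝ} {b : B}
    (h : ∀ m : ℕ, ∀ᶠ p : ℝ × B in atTop ×ˢ 𝓝 b, |stat G (y p.2) p.1 - c| ≤ 2 / ((m : ℝ) + 1)) :
    Tendsto (fun p : ℝ × B => stat G (y p.2) p.1) (atTop ×ˢ 𝓝 b) (𝓝 c) := by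
  rw [Metric.tendsto_nhds]
  intro ε hε
  obtain ⟨m, hm⟩ := exists_nat_gt (2 / ε)
  filter_upwards [h m] with p hp
  rw [Real.dist_eq]
  refine hp.trans_lt ?_
  rw [div_lt_iff₀ (by positivity)]
  rw [div_lt_iff₀ hε] at hm
  nlinarith

theorem tendsto_of_joint {c : ℝ} {b : B}
    (h : Tendsto (fun p : ℝ × B => stat G (y p.2) p.1) (atTop ×ˢ 𝓝 b) (𝓝 c)) :
    Tendsto (fun T => stat G (y b) T) atTop (𝓝 c) :=
  h.comp (tendsto_id.prodMk (tendsto_const_nhds (x := b)))

section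

variable (hc : ∀ j, Continuous fun b => y b j) (hm : ∀ b, Monotone (y b))
  (ht : ∀ b, Tendsto (y b) atTop atTop) (hG : ∀ k, Continuous (G k))

include hc hm ht hG

theorem near_closed (c ε : ℝ) (N : ℕ) : IsClosed (Near G y c ε N) :=
  isClosed_near hc hm ht hG c ε (by positivity)

theorem nowhere_dense {c : ℝ}
    (h : Thick {b | Tendsto (fun T => stat G (y b) T) atTop (𝓝 c)}) {ε : ℝ} (hε : 0 < ε) :
    IsNowhereDense {b | ¬ ∀ᶠ T in atTop, |stat G (y b) T - c| ≤ ε} := by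
  have h1 : Dense (⋃ N, interior (Near G y c ε N)) := by
    refine dense_int h (near_closed hc hm ht hG c ε) fun b hb => ?_
    have hb' : Tendsto (fun T => stat G (y b) T) atTop (𝓝 c) := hb
    have h2 : ∀ᶠ T in atTop, |stat G (y b) T - c| ≤ ε := by
      filter_upwards [Metric.tendsto_nhds.1 hb' ε hε] with T hT
      rw [Real.dist_eq] at hT
      exact hT.le
    exact Set.mem_iUnion.2 ((ev_iff c ε b).1 h2)
  have h2 : IsNowhereDense (⋃ N, interior (Near G y c ε N))ᶜ := by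
    refine (isClosed_isNowhereDense_iff_compl.2 ?_).2
    rw [compl_compl]
    exact ⟨isOpen_iUnion fun _ => isOpen_interior, h1⟩
  have h3 : {b | ¬ ∀ᶠ T in atTop, |stat G (y b) T - c| ≤ ε} ⊆
      (⋃ N, interior (Near G y c ε N))ᶜ := by
    intro b hb hb'
    obtain ⟨N, hN⟩ := Set.mem_iUnion.1 hb'
    exact hb ((ev_iff c ε b).2 ⟨N, interior_subset hN⟩)
  exact IsNowhereDense.mono h3 h2

theorem joint_generic [BaireSpace B] {c : ℝ}
    (h : ∀ ε : ℝ, 0 < ε → IsNowhereDense {b | ¬ ∀ᶠ T in atTop, |stat G (y b) T - c| ≤ ε}) :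
    ∀ᶠ b in residual B,
      Tendsto (fun p : ℝ × B => stat G (y p.2) p.1) (atTop ×ˢ 𝓝 b) (𝓝 c) := by
  have h1 : ∀ m : ℕ, Dense (⋃ N, interior (Near G y c (2 / ((m : ℝ) + 1)) N)) := by
    intro m
    have h2 := (h (2 / ((m : ℝ) + 1)) (by positivity)).isMeagre
    have h3 : Thick {b | ∀ᶠ T in atTop, |stat G (y b) T - c| ≤ 2 / ((m : ℝ) + 1)} := by
      apply thick_of_residual
      rw [IsMeagre] at h2
      filter_upwards [h2] with b hb
      exact not_not.1 hb
    refine dense_int h3 (near_closed hc hm ht hG c _) fun b hb => ?_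
    exact Set.mem_iUnion.2 ((ev_iff c _ b).1 hb)
  have h2 : ∀ᶠ b in residual B, ∀ m : ℕ, b ∈ ⋃ N, interior (Near G y c (2 / ((m : ℝ) + 1)) N) := by
    rw [eventually_countable_forall]
    exact fun m => residual_of_dense_open (isOpen_iUnion fun _ => isOpen_interior) (h1 m)
  filter_upwards [h2] with b hb
  refine joint_of_all fun m => ?_
  obtain ⟨N, hN⟩ := Set.mem_iUnion.1 (hb m)
  exact joint_of_interior hN

/-- the open dense sets in the case that the limit exists -/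
theorem exists_cover
    (h : Thick {b | ∃ L : ℝ, Tendsto (fun T => stat G (y b) T) atTop (𝓝 L)}) :
    ∀ᶠ b in residual B, ∀ m : ℕ, ∃ (c : ℝ) (N : ℕ),
      b ∈ interior (Near G y c (1 / ((m : ℝ) + 1)) N) := by
  rw [eventually_countable_forall]
  intro m
  have h1 : Dense (⋃ i : ℚ × ℕ, interior (Near G y (i.1 : ℝ) (1 / ((m : ℝ) + 1)) i.2)) := by
    refine dense_int h (fun i => near_closed hc hm ht hG _ _ _) fun b hb => ?_
    obtain ⟨L, hL⟩ := hb
    have hε : (0 : ℝ) < 1 / ((m : ℝ) + 1) / 2 := by positivity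
    obtain ⟨q, hq1, hq2⟩ := exists_rat_btwn (show L < L + 1 / ((m : ℝ) + 1) / 2 by linarith)
    have h2 : ∀ᶠ T in atTop, |stat G (y b) T - q| ≤ 1 / ((m : ℝ) + 1) := by
      filter_upwards [Metric.tendsto_nhds.1 hL _ hε] with T hT
      rw [Real.dist_eq, abs_lt] at hT
      rw [abs_le]
      constructor <;> linarith [hT.1, hT.2]
    obtain ⟨N, hN⟩ := (ev_iff _ _ b).1 h2
    exact Set.mem_iUnion.2 ⟨(q, N), hN⟩
  have h2 := residual_of_dense_open (isOpen_iUnion fun i : ℚ × ℕ =>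
    (isOpen_interior (s := Near G y (i.1 : ℝ) (1 / ((m : ℝ) + 1)) i.2))) h1
  filter_upwards [h2] with b hb
  obtain ⟨i, hi⟩ := Set.mem_iUnion.1 hb
  exact ⟨i.1, i.2, hi⟩

theorem exists_joint
    (h : Thick {b | ∃ L : ℝ, Tendsto (fun T => stat G (y b) T) atTop (𝓝 L)}) :
    ∀ᶠ b in residual B, ∃ L : ℝ,
      Tendsto (fun p : ℝ × B => stat G (y p.2) p.1) (atTop ×ˢ 𝓝 b) (𝓝 L) := by
  filter_upwards [exists_cover hc hm ht hG h] with b hb
  rw [← cauchy_map_iff_exists_tendsto, cauchy_map_iff', Metric.uniformity_basis_dist.tendsto_right_iff]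
  intro ε hε
  obtain ⟨m, hm⟩ := exists_nat_gt (2 / ε)
  obtain ⟨c, N, hN⟩ := hb m
  have h1 := joint_of_interior hN
  filter_upwards [h1.prod_mk h1] with p hp
  have h3 : dist (stat G (y p.1.2) p.1.1) (stat G (y p.2.2) p.2.1) ≤
      1 / ((m : ℝ) + 1) + 1 / ((m : ℝ) + 1) := by
    refine (dist_triangle_right _ _ c).trans ?_
    rw [Real.dist_eq, Real.dist_eq]
    exact add_le_add hp.1 hp.2
  refine h3.trans_lt ?_
  rw [← add_div, div_lt_iff₀ (by positivity)]
  rw [div_lt_iff₀ hε] at hm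
  nlinarith

theorem dense_value {c : ℝ}
    (h : Thick {b | ∃ L : ℝ, Tendsto (fun T => stat G (y b) T) atTop (𝓝 L)})
    (hd : Dense {b | MapClusterPt c atTop fun T => stat G (y b) T}) :
    ∀ᶠ b in residual B,
      Tendsto (fun p : ℝ × B => stat G (y p.2) p.1) (atTop ×ˢ 𝓝 b) (𝓝 c) := by
  filter_upwards [exists_cover hc hm ht hG h] with b hb
  refine joint_of_all fun m => ?_
  obtain ⟨c', N, hN⟩ := hb m
  obtain ⟨d, hd1, hd2⟩ := hd.inter_open_nonempty _ isOpen_interior ⟨b, hN⟩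
  have h1 : |c - c'| ≤ 1 / ((m : ℝ) + 1) := by
    by_contra hcon
    rw [not_le] at hcon
    have h2 : ∀ᶠ t in 𝓝 c, 1 / ((m : ℝ) + 1) < |t - c'| :=
      (continuous_abs.comp (continuous_id.sub continuous_const)).continuousAt.eventually_const_lt hcon
    have h3 := hd2.frequently h2
    have h4 : ∀ᶠ T : ℝ in atTop, (N : ℝ) + 1 ≤ T := eventually_ge_atTop _
    obtain ⟨T, h5, h6⟩ := (h3.and_eventually h4).exists
    exact absurd (interior_subset hd1 T h6) (not_le.2 h5)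
  filter_upwards [joint_of_interior hN] with p hp
  have h2 : (2 : ℝ) / ((m : ℝ) + 1) = 1 / ((m : ℝ) + 1) + 1 / ((m : ℝ) + 1) := by ring
  rw [h2]
  refine (abs_sub_le _ c' _).trans (add_le_add hp ?_)
  rwa [abs_sub_comm]

end

end

end Pool.Agent.Q93.BGS
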