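import Pool.Agent.Q93.BGS.B

/-!
# Vague convergence of the local statistics
-/

set_option autoImplicit false

open Set Filter Topology MeasureTheory

noncomputable section

namespace Pool.Agent.Q93.BGS

section

/-- the functions on a closed ball which extend by zero -/
def ext0 (m : ℕ) (R : ℝ) : Type :=
  {f : C(Fin m → ℝ, ℝ) // ∀ t, R < ‖t‖ → f t = 0}

/-- restriction to the closed ball -/
def res0 (m : ℕ) (R : ℝ) (f : ext0 m R) : C(Metric.closedBall (0 : Fin m → ℝ) R, ℝ) :=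
  f.1.comp ⟨Subtype.val, continuous_subtype_val⟩

/-- the cut-off -/
def hat (m : ℕ) (R : ℝ) (t : Fin m → ℝ) : ℝ := max 0 (min 1 (R + 1 - ‖t‖))

theorem hat_cont (m : ℕ) (R : ℝ) : Continuous (hat m R) := by
  unfold hat
  fun_prop

theorem hat_nonneg (m : ℕ) (R : ℝ) (t : Fin m → ℝ) : 0 ≤ hat m R t := le_max_left _ _

theorem hat_one (m : ℕ) (R : ℝ) {t : Fin m → ℝ} (ht : ‖t‖ ≤ R) : hat m R t = 1 := by
  unfold hat
  rw [min_eq_left (by linarith)]
  exact max_eq_right zero_le_one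

theorem hat_supp (m : ℕ) (R : ℝ) : HasCompactSupport (hat m R) := by
  refine HasCompactSupport.intro (isCompact_closedBall (0 : Fin m → ℝ) (R + 1)) fun t ht => ?_
  rw [Metric.mem_closedBall, dist_zero_right, not_le] at ht
  unfold hat
  refine max_eq_left ?_
  exact (min_le_right _ _).trans (by linarith)

/-- countably many test functions are sufficient -/
theorem exists_test (m : ℕ) : ∃ D : Set ((Fin m → ℝ) → ℝ), D.Countable ∧
    (∀ g ∈ D, Continuous g ∧ HasCompactSupport g) ∧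
    ∀ f : (Fin m → ℝ) → ℝ, Continuous f → HasCompactSupport f →
      ∃ h ∈ D, (∀ t, 0 ≤ h t) ∧ ∀ ε : ℝ, 0 < ε → ∃ g ∈ D, ∀ t, |f t - g t| ≤ ε * h t := by
  have h1 : ∀ R : ℕ, ∃ c : Set (ext0 m R), c.Countable ∧
      ∀ (f : ext0 m R) (ε : ℝ), 0 < ε → ∃ g ∈ c, ∀ t, |f.1 t - g.1 t| ≤ ε * hat m R t := by
    intro R
    have : CompactSpace (Metric.closedBall (0 : Fin m → ℝ) (R : ℝ)) :=
      isCompact_iff_compactSpace.1 (isCompact_closedBall _ _)
    have h2 : TopologicalSpace.IsSeparable (Set.range (res0 m R)) :=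
      TopologicalSpace.IsSeparable.of_separableSpace _
    obtain ⟨c, h3, h4, h5⟩ := h2.exists_countable_dense_subset
    choose s hs using fun y : c => h3 y.2
    have : Countable c := h4.to_subtype
    refine ⟨Set.range s, Set.countable_range s, fun f ε hε => ?_⟩
    have h6 : res0 m R f ∈ closure c := h5 ⟨f, rfl⟩
    obtain ⟨y, hy, h7⟩ := Metric.mem_closure_iff.1 h6 ε hε
    refine ⟨s ⟨y, hy⟩, ⟨_, rfl⟩, fun t => ?_⟩
    by_cases ht : ‖t‖ ≤ R
    · rw [hat_one m R ht, mul_one]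
      have h8 := (ContinuousMap.dist_lt_iff hε).1 h7 ⟨t, by simpa using ht⟩
      have h9 : y ⟨t, by simpa using ht⟩ = (s ⟨y, hy⟩).1 t := by
        have h10 := congrArg (fun F : C(Metric.closedBall (0 : Fin m → ℝ) (R : ℝ), ℝ) =>
          F ⟨t, by simpa using ht⟩) (hs ⟨y, hy⟩)
        exact h10.symm
      rw [Real.dist_eq, h9] at h8
      exact h8.le
    · rw [not_le] at ht
      rw [f.2 t ht, (s ⟨y, hy⟩).2 t ht, sub_self, abs_zero]
      exact mul_nonneg hε.le (hat_nonneg m R t)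
  choose c hc1 hc2 using h1
  refine ⟨Set.range (fun R : ℕ => hat m R) ∪ ⋃ R : ℕ, (fun g : ext0 m R => (g.1 : (Fin m → ℝ) → ℝ)) '' c R, ?_, ?_, ?_⟩
  · exact (Set.countable_range _).union (Set.countable_iUnion fun R => (hc1 R).image _)
  · rintro g (⟨R, rfl⟩ | hg)
    · exact ⟨hat_cont m R, hat_supp m R⟩
    · obtain ⟨R, g', -, rfl⟩ := Set.mem_iUnion.1 hg
      refine ⟨g'.1.continuous, HasCompactSupport.intro (isCompact_closedBall (0 : Fin m → ℝ) R) fun t ht => ?_⟩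
      rw [Metric.mem_closedBall, dist_zero_right, not_le] at ht
      exact g'.2 t ht
  · intro f hf hs
    obtain ⟨r, hr⟩ := hs.isCompact.isBounded.subset_closedBall (0 : Fin m → ℝ)
    obtain ⟨R, hR⟩ := exists_nat_ge r
    have h2 : ∀ t, (R : ℝ) < ‖t‖ → f t = 0 := by
      intro t ht
      by_contra h3
      have h4 := hr (subset_tsupport f h3)
      rw [Metric.mem_closedBall, dist_zero_right] at h4
      linarith
    refine ⟨hat m R, Or.inl ⟨R, rfl⟩, hat_nonneg m R, fun ε hε => ?_⟩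
    obtain ⟨g, hg1, hg2⟩ := hc2 R ⟨⟨f, hf⟩, h2⟩ ε hε
    exact ⟨g.1, Or.inr (Set.mem_iUnion.2 ⟨R, g, hg1, rfl⟩), hg2⟩

/-- extension from the countable set of test functions -/
theorem extend {m : ℕ} {P : Type} {l : Filter P} {ν : Measure (Fin m → ℝ)}
    [IsFiniteMeasureOnCompacts ν] {S : ((Fin m → ℝ) → ℝ) → P → ℝ}
    (hS : ∀ᶠ p in l, ∀ (f g h : (Fin m → ℝ) → ℝ) (ε : ℝ), (∀ t, |f t - g t| ≤ ε * h t) →
      |S f p - S g p| ≤ ε * S h p)
    {D : Set ((Fin m → ℝ) → ℝ)} (hD : ∀ g ∈ D, Continuous g ∧ HasCompactSupport g)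
    (hT : ∀ g ∈ D, Tendsto (S g) l (𝓝 (∫ t, g t ∂ν))) {f : (Fin m → ℝ) → ℝ}
    (hf : Continuous f) (hs : HasCompactSupport f)
    (ha : ∃ h ∈ D, (∀ t, 0 ≤ h t) ∧ ∀ ε : ℝ, 0 < ε → ∃ g ∈ D, ∀ t, |f t - g t| ≤ ε * h t) :
    Tendsto (S f) l (𝓝 (∫ t, f t ∂ν)) := by
  obtain ⟨h, hh, h0, ha⟩ := ha
  obtain ⟨I, hI⟩ : ∃ I : ℝ, I = ∫ t, h t ∂ν := ⟨_, rfl⟩
  have hI0 : 0 ≤ I := by rw [hI]; exact integral_nonneg h0
  rw [Metric.tendsto_nhds]
  intro ε hε
  obtain ⟨δ, hδ⟩ : ∃ δ : ℝ, δ = ε / (4 * (I + 1)) := ⟨_, rfl⟩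
  have hδ0 : 0 < δ := by rw [hδ]; positivity
  have hδ1 : δ * (I + 1) = ε / 4 := by rw [hδ]; field_simp
  obtain ⟨g, hg, hfg⟩ := ha δ hδ0
  have e1 := Metric.tendsto_nhds.1 (hT g hg) (ε / 4) (by positivity)
  have e2 := Metric.tendsto_nhds.1 (hT h hh) 1 one_pos
  filter_upwards [hS, e1, e2] with p h1 h2 h3
  rw [Real.dist_eq] at h2 h3 ⊢
  rw [← hI] at h3
  have h4 := h1 f g h δ hfg
  have h5 : S h p ≤ I + 1 := by linarith [(abs_lt.1 h3).2]
  have h6 : δ * S h p ≤ ε / 4 := by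
    rw [← hδ1]
    exact mul_le_mul_of_nonneg_left h5 hδ0.le
  have i1 : Integrable f ν := hf.integrable_of_hasCompactSupport hs
  have i2 : Integrable g ν := (hD g hg).1.integrable_of_hasCompactSupport (hD g hg).2
  have i3 : Integrable h ν := (hD h hh).1.integrable_of_hasCompactSupport (hD h hh).2
  have h7 : |(∫ t, g t ∂ν) - ∫ t, f t ∂ν| ≤ δ * I := by
    rw [← integral_sub i2 i1, hI, ← integral_const_mul]
    refine (abs_integral_le_integral_abs).trans ?_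
    refine integral_mono (i2.sub i1).abs (i3.const_mul δ) fun t => ?_
    simp only
    rw [abs_sub_comm]
    exact hfg t
  have h8 : δ * I ≤ ε / 4 := by
    rw [← hδ1]
    exact mul_le_mul_of_nonneg_left (by linarith) hδ0.le
  rw [abs_lt]
  rw [abs_lt] at h2
  rw [abs_le] at h4 h7
  constructor <;> linarith [h2.1, h2.2, h4.1, h4.2, h7.1, h7.2]

/-- comparison of the statistics -/
theorem stat_comp {n : ℕ} {G₁ G₂ G₃ : (Fin n → ℕ) → (ℕ → ℝ) → ℝ} {ε : ℝ} {x : ℕ → ℝ}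
    (hx : Tendsto x atTop atTop) {T : ℝ} (hT : 0 < T)
    (h : ∀ k, |G₁ k x - G₂ k x| ≤ ε * G₃ k x) :
    |stat G₁ x T - stat G₂ x T| ≤ ε * stat G₃ x T := by
  rw [stat_eq hx, stat_eq hx, stat_eq hx, ← mul_sub, ← Finset.sum_sub_distrib, abs_mul,
    abs_of_pos (inv_pos.2 hT)]
  have h1 : ε * (T⁻¹ * ∑ k ∈ (idx_finite (n := n) hx T).toFinset, G₃ k x) =
      T⁻¹ * ∑ k ∈ (idx_finite (n := n) hx T).toFinset, ε * G₃ k x := by
    rw [← Finset.mul_sum]
    ring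
  rw [h1]
  refine mul_le_mul_of_nonneg_left ?_ (inv_pos.2 hT).le
  exact (Finset.abs_sum_le_sum_abs _ _).trans (Finset.sum_le_sum fun k _ => h k)

end

section

variable {B : Type} [TopologicalSpace B] [BaireSpace B] {y : B → ℕ → ℝ}

/-- generic joint vague convergence -/
theorem vague_joint (hc : ∀ j, Continuous fun b => y b j) (hm : ∀ b, Monotone (y b))
    (ht : ∀ b, Tendsto (y b) atTop atTop) {n m : ℕ}
    {G : ((Fin m → ℝ) → ℝ) → (Fin n → ℕ) → (ℕ → ℝ) → ℝ}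
    (hG : ∀ f, Continuous f → ∀ k, Continuous (G f k))
    (hG' : ∀ (f g h : (Fin m → ℝ) → ℝ) (ε : ℝ), (∀ t, |f t - g t| ≤ ε * h t) →
      ∀ k x, |G f k x - G g k x| ≤ ε * G h k x)
    {ν : Measure (Fin m → ℝ)} [IsFiniteMeasureOnCompacts ν]
    (h : ∀ f : (Fin m → ℝ) → ℝ, Continuous f → HasCompactSupport f → ∀ ε : ℝ, 0 < ε →
      IsNowhereDense {b | ¬ ∀ᶠ T in atTop, |stat (G f) (y b) T - ∫ t, f t ∂ν| ≤ ε}) :
    ∀ᶠ b in residual B, ∀ f : (Fin m → ℝ) → ℝ, Continuous f → HasCompactSupport f →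
      Tendsto (fun p : ℝ × B => stat (G f) (y p.2) p.1) (atTop ×ˢ 𝓝 b) (𝓝 (∫ t, f t ∂ν)) := by
  obtain ⟨D, hD1, hD2, hD3⟩ := exists_test m
  have h1 : ∀ᶠ b in residual B, ∀ g ∈ D,
      Tendsto (fun p : ℝ × B => stat (G g) (y p.2) p.1) (atTop ×ˢ 𝓝 b) (𝓝 (∫ t, g t ∂ν)) := by
    rw [eventually_countable_ball hD1]
    intro g hg
    exact joint_generic hc hm ht (hG g (hD2 g hg).1) (h g (hD2 g hg).1 (hD2 g hg).2)
  filter_upwards [h1] with b hb f hf hs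
  refine extend (S := fun f (p : ℝ × B) => stat (G f) (y p.2) p.1) ?_ hD2 hb hf hs (hD3 f hf hs)
  have h2 : ∀ᶠ p : ℝ × B in atTop ×ˢ 𝓝 b, 0 < p.1 :=
    (tendsto_fst (f := (atTop : Filter ℝ)) (g := 𝓝 b)).eventually (eventually_gt_atTop 0)
  filter_upwards [h2] with p hp f g h ε hfg
  exact stat_comp (ht p.2) hp fun k => hG' f g h ε hfg k _

end

end Pool.Agent.Q93.BGS
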