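import Pool.Agent.Q93.BGS.A

/-!
# Cluster values of the local statistics for generic parameters
-/

set_option autoImplicit false

open Set Filter Topology

noncomputable section

namespace Pool.Agent.Q93.BGS

section

variable {B : Type} [TopologicalSpace B] {y : B → ℕ → ℝ} {n : ℕ → ℕ}
  {G : ∀ i, (Fin (n i) → ℕ) → (ℕ → ℝ) → ℝ}

/-- all the statistics -/
def vec (G : ∀ i, (Fin (n i) → ℕ) → (ℕ → ℝ) → ℝ) (x : ℕ → ℝ) (T : ℝ) (i : ℕ) : ℝ :=
  stat (G i) x T

/-- the parameters whose statistics meet `V` after the time `N` -/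
def Hit (G : ∀ i, (Fin (n i) → ℕ) → (ℕ → ℝ) → ℝ) (y : B → ℕ → ℝ) (V : Set (ℕ → ℝ)) (N : ℕ) :
    Set B :=
  {b | ∃ T : ℝ, (N : ℝ) < T ∧ vec G (y b) T ∈ V}

theorem hit_open (hc : ∀ j, Continuous fun b => y b j) (hm : ∀ b, Monotone (y b))
    (ht : ∀ b, Tendsto (y b) atTop atTop) (hG : ∀ i k, Continuous (G i k)) {V : Set (ℕ → ℝ)}
    (hV : IsOpen V) (N : ℕ) : IsOpen (Hit G y V N) := by
  rw [isOpen_iff_mem_nhds]
  rintro b ⟨T, hT, hb⟩
  have hT0 : 0 < T := lt_of_le_of_lt (Nat.cast_nonneg N) hT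
  have h1 : Tendsto (fun T' => vec G (y b) T') (𝓝[>] T) (𝓝 (vec G (y b) T)) :=
    tendsto_pi_nhds.2 fun i => stat_right (ht b) hT0
  have h2 : ∀ᶠ T' in 𝓝[>] T, vec G (y b) T' ∈ V := h1 (hV.mem_nhds hb)
  obtain ⟨T', h3, h4, h5⟩ := (h2.and ((gap (ht b) T).and self_mem_nhdsWithin)).exists
  have h5' : T < T' := h5
  have h6 : ContinuousAt (fun b' => vec G (y b') T') b :=
    continuousAt_pi.2 fun i => stat_contAt hc hm ht (hG i) b fun j => (h4 j).2
  filter_upwards [h6 (hV.mem_nhds h3)] with b' h7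
  exact ⟨T', hT.trans h5', h7⟩

theorem cluster_generic (hc : ∀ j, Continuous fun b => y b j) (hm : ∀ b, Monotone (y b))
    (ht : ∀ b, Tendsto (y b) atTop atTop) (hG : ∀ i k, Continuous (G i k)) :
    ∀ᶠ b in residual B, ∀ c : ℕ → ℝ,
      MapClusterPt c (atTop ×ˢ 𝓝 b) (fun p : ℝ × B => vec G (y p.2) p.1) →
      MapClusterPt c atTop (fun T => vec G (y b) T) := by
  have h1 : ∀ᶠ b in residual B, ∀ V ∈ TopologicalSpace.countableBasis (ℕ → ℝ), ∀ N : ℕ,
      b ∈ closure (Hit G y V N) → b ∈ Hit G y V N := by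
    rw [eventually_countable_ball (TopologicalSpace.countable_countableBasis _)]
    intro V hV
    rw [eventually_countable_forall]
    intro N
    have h2 : IsOpen (Hit G y V N) :=
      hit_open hc hm ht hG (TopologicalSpace.isOpen_of_mem_countableBasis hV) N
    have h3 : IsOpen ((closure (Hit G y V N))ᶜ ∪ Hit G y V N) :=
      isClosed_closure.isOpen_compl.union h2
    have h4 : Dense ((closure (Hit G y V N))ᶜ ∪ Hit G y V N) := by
      rw [dense_iff_inter_open]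
      rintro U hU ⟨b, hb⟩
      by_cases h : b ∈ closure (Hit G y V N)
      · obtain ⟨b', h5, h6⟩ := mem_closure_iff.1 h U hU hb
        exact ⟨b', h5, Or.inr h6⟩
      · exact ⟨b, hb, Or.inl h⟩
    filter_upwards [residual_of_dense_open h3 h4] with b hb h5
    rcases hb with hb | hb
    · exact absurd h5 hb
    · exact hb
  filter_upwards [h1] with b hb c hcl
  rw [mapClusterPt_iff_frequently]
  intro s hs
  obtain ⟨V, hV, hcV, hVs⟩ :=
    (TopologicalSpace.isBasis_countableBasis (ℕ → ℝ)).mem_nhds_iff.1 hs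
  rw [frequently_atTop]
  intro a
  obtain ⟨N, hN⟩ := exists_nat_ge a
  have h2 : b ∈ closure (Hit G y V N) := by
    rw [mem_closure_iff]
    intro U hU hbU
    have h3 : ∃ᶠ p : ℝ × B in atTop ×ˢ 𝓝 b, vec G (y p.2) p.1 ∈ V :=
      mapClusterPt_iff_frequently.1 hcl V
        ((TopologicalSpace.isOpen_of_mem_countableBasis hV).mem_nhds hcV)
    have h4 : ∀ᶠ p : ℝ × B in atTop ×ˢ 𝓝 b, (N : ℝ) < p.1 ∧ p.2 ∈ U :=
      (eventually_gt_atTop (N : ℝ)).prod_mk (hU.mem_nhds hbU)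
    obtain ⟨p, h5, h6, h7⟩ := (h3.and_eventually h4).exists
    exact ⟨p.2, h7, p.1, h6, h5⟩
  obtain ⟨T, hT1, hT2⟩ := hb V hV N h2
  exact ⟨T, hN.trans hT1.le, hVs hT2⟩

/-- cluster values on a dense set are cluster values for nearby parameters -/
theorem cluster_dense {c : ℕ → ℝ}
    (hd : Dense {b | MapClusterPt c atTop (fun T => vec G (y b) T)}) (b : B) :
    MapClusterPt c (atTop ×ˢ 𝓝 b) (fun p : ℝ × B => vec G (y p.2) p.1) := by
  rw [mapClusterPt_iff_frequently]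
  intro s hs hn
  have hn' : ∀ᶠ p : ℝ × B in atTop ×ˢ 𝓝 b, vec G (y p.2) p.1 ∉ s := hn
  obtain ⟨pa, ha, pb, hb, h1⟩ := Filter.eventually_prod_iff.1 hn'
  obtain ⟨U, hU1, hU2, hU3⟩ := mem_nhds_iff.1 hb
  obtain ⟨b', h2, h3⟩ := hd.inter_open_nonempty U hU2 ⟨b, hU3⟩
  obtain ⟨T, h4, h5⟩ := ((mapClusterPt_iff_frequently.1 h3 s hs).and_eventually ha).exists
  exact h1 h5 (hU1 h2) h4

end

end Pool.Agent.Q93.BGS
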