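import Pool.Agent.Y264.QR.All

/-!
# The unfolded levels are continuous functions of the conformal factor
-/

set_option autoImplicit false
set_option linter.unusedSectionVars false

open Set Filter Topology MeasureTheory
open Pool.Agent.Y262.QE Pool.Agent.Y264.QR

noncomputable section

namespace Pool.Agent.Q93.BGS

section

variable {M : Type} [MetricSpace M] [CompactSpace M] [MeasurableSpace M] [BorelSpace M]
  {μ : Measure M} {D : Data M}

/-- the total area of `exp φ · g` -/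
def ar (μ : Measure M) (φ : C(M, ℝ)) : ℝ := ∫ x, Real.exp (φ x) ∂μ

theorem ar_cont [IsFiniteMeasure μ] : Continuous (ar μ) :=
  (Pool.Agent.Y689.QR.int_cont μ).comp Pool.Agent.Y689.QR.exp_cont

theorem ar_eq (φ : C(M, ℝ)) : (wm μ fun x => Real.exp (φ x)).real univ = ar μ φ := by
  have hm : Measurable fun x => Real.exp (φ x) :=
    (Real.continuous_exp.comp φ.continuous).measurable
  have h7 : (wm μ fun x => Real.exp (φ x)).real univ =
      ∫ x, (1 : ℝ) ∂(wm μ fun x => Real.exp (φ x)) := by simp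
  rw [h7, integral_wm μ _ hm fun x => (Real.exp_pos _).le]
  simp [ar]

/-- the unfolded levels -/
theorem levels [Nonempty M] (S : D.IsSurf μ) :
    ∃ x : C(M, ℝ) → ℕ → ℝ, (∀ k, Continuous fun φ => x φ k) ∧ (∀ φ, Monotone (x φ)) ∧
      (∀ φ, Tendsto (x φ) atTop atTop) ∧
      ∀ (φ : C(M, ℝ)) (u : ℕ → M → ℝ) (lam : ℕ → ℝ),
        EigBasis (D.conf fun x => Real.exp (φ x)) (wm μ fun x => Real.exp (φ x)) u lam →
        ∀ k, (wm μ fun x => Real.exp (φ x)).real univ * lam k / (4 * Real.pi) = x φ k := by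
  obtain ⟨hf, -⟩ := tFin M μ D S
  have := hf
  obtain ⟨j, a, hSf, hj, ha⟩ := tPackF M μ D S inferInstance
  obtain ⟨b, hB, hF, hpos, hcmp, -⟩ := tFm M μ (HF D μ) j a hSf
  obtain ⟨-, hmon, -, hcont, hdich⟩ := tLip M μ (HF D μ) a b hF hcmp
  have hbr := fun φ u lam hu => tBr M μ D S j a b hSf hj ha hB hF φ u lam hu
  have hπ := Real.pi_pos
  refine ⟨fun φ k => ar μ φ * Ev a (b φ) k / (4 * Real.pi), fun k => ?_, fun φ => ?_, fun φ => ?_,
    fun φ u lam hu k => ?_⟩
  · exact (ar_cont.mul (hcont k)).div_const _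
  · obtain ⟨u, lam, hu⟩ := tEx M μ D S inferInstance φ
    obtain ⟨e, -, he⟩ := hbr φ u lam hu
    intro k k' hk
    simp only
    rw [Pool.Agent.Y592.QE.mm _ a (b φ) (hF φ) e lam he k,
      Pool.Agent.Y592.QE.mm _ a (b φ) (hF φ) e lam he k']
    have h1 : 0 < ar μ φ := hpos φ
    have h2 := hu.mono hk
    gcongr
  · obtain ⟨u, lam, hu⟩ := tEx M μ D S inferInstance φ
    obtain ⟨e, -, he⟩ := hbr φ u lam hu
    have h1 : 0 < ar μ φ := hpos φ
    have h2 := he.tt.const_mul_atTop (show 0 < ar μ φ / (4 * Real.pi) by positivity)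
    refine h2.congr fun k => ?_
    simp only
    rw [Pool.Agent.Y592.QE.mm _ a (b φ) (hF φ) e lam he k]
    ring
  · obtain ⟨e, -, he⟩ := hbr φ u lam hu
    simp only
    rw [Pool.Agent.Y592.QE.mm _ a (b φ) (hF φ) e lam he k, ar_eq]

end

end Pool.Agent.Q93.BGS
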