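import Pool.Agent.Y264.QR.All

/-!
# Comparison of the gradients and areas of two metrics
-/

set_option autoImplicit false

open Set Filter Topology MeasureTheory
open Pool.Agent.Y262.QE Pool.Agent.Y264.QR

noncomputable section

namespace Pool.Agent.Q93.BGS

/-- the same charts with other coframes -/
def recf {M : Type} (D : Data M) (A : Fin D.N → ℂ → ℂ →L[ℝ] ℂ) : Data M where
  N := D.N
  U := D.U
  φ := D.φ
  ψ := D.ψ
  A := A

/-- comparison of coframes -/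
def Cmp {M : Type} (D : Data M) (A A' : Fin D.N → ℂ → ℂ →L[ℝ] ℂ) (κ : ℝ) : Prop :=
  ∀ i, ∀ z ∈ D.T i, ∀ v, ‖A i z v‖ ≤ κ * ‖A' i z v‖

theorem inv_left {A : ℂ →L[ℝ] ℂ} (hA : A.det ≠ 0) (v : ℂ) : A.inverse (A v) = v := by
  have h := Pool.Agent.Y183.QR.Loc.b_bi hA 0 v
  simpa using h

theorem inv_right {A : ℂ →L[ℝ] ℂ} (hA : A.det ≠ 0) (v : ℂ) : A (A.inverse v) = v := by
  have h := Pool.Agent.Y183.QR.Loc.bi_b hA 0 v
  simpa using h

theorem grd_cmp {A A' : ℂ →L[ℝ] ℂ} (hA : A.det ≠ 0) (hA' : A'.det ≠ 0) {κ : ℝ} (hκ : 0 ≤ κ)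
    (h : ∀ v, ‖A v‖ ≤ κ * ‖A' v‖) (P : ℂ →L[ℝ] ℝ) : ‖grd A' P‖ ≤ κ * ‖grd A P‖ := by
  rw [Pool.Agent.Y183.QR.Loc.norm_grd, Pool.Agent.Y183.QR.Loc.norm_grd]
  refine ContinuousLinearMap.opNorm_le_bound _ (by positivity) fun w => ?_
  have h1 : P (A'.inverse w) = (P.comp A.inverse) (A (A'.inverse w)) := by
    show P (A'.inverse w) = P (A.inverse (A (A'.inverse w)))
    rw [inv_left hA]
  show ‖P (A'.inverse w)‖ ≤ _
  rw [h1]
  refine ((P.comp A.inverse).le_opNorm _).trans ?_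
  have h2 := h (A'.inverse w)
  rw [inv_right hA'] at h2
  calc ‖P.comp A.inverse‖ * ‖A (A'.inverse w)‖ ≤ ‖P.comp A.inverse‖ * (κ * ‖w‖) := by gcongr
    _ = κ * ‖P.comp A.inverse‖ * ‖w‖ := by ring

theorem det_bd {L : ℂ →L[ℝ] ℂ} {κ : ℝ} (hκ : 0 ≤ κ) (h : ∀ v, ‖L v‖ ≤ κ * ‖v‖) :
    |L.det| ≤ κ ^ 2 := by
  have h1 := MeasureTheory.Measure.addHaar_image_continuousLinearMap (volume : Measure ℂ) L
    (Metric.closedBall 0 1)
  have h2 : L '' Metric.closedBall 0 1 ⊆ Metric.closedBall 0 κ := by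
    rintro _ ⟨v, hv, rfl⟩
    rw [Metric.mem_closedBall, dist_zero_right] at hv ⊢
    exact (h v).trans (by nlinarith)
  have h3 := measure_mono (μ := (volume : Measure ℂ)) h2
  rw [h1, Measure.addHaar_closedBall _ _ hκ, Measure.addHaar_closedBall _ _ zero_le_one, one_pow,
    ENNReal.ofReal_one, one_mul, Complex.finrank_real_complex] at h3
  have h4 : volume (Metric.ball (0 : ℂ) 1) ≠ 0 := (Metric.measure_ball_pos _ _ one_pos).ne'
  have h5 : volume (Metric.ball (0 : ℂ) 1) ≠ ⊤ := measure_ball_lt_top.ne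
  have h6 := (ENNReal.mul_le_mul_iff_left h4 h5).1 h3
  exact (ENNReal.ofReal_le_ofReal_iff (by positivity)).1 h6

theorem det_cmp {A A' : ℂ →L[ℝ] ℂ} (hA' : A'.det ≠ 0) {κ : ℝ} (hκ : 0 ≤ κ)
    (h : ∀ v, ‖A v‖ ≤ κ * ‖A' v‖) : |A.det| ≤ κ ^ 2 * |A'.det| := by
  have h1 : |(A.comp A'.inverse).det| ≤ κ ^ 2 := by
    refine det_bd hκ fun v => ?_
    have h2 := h (A'.inverse v)
    rw [inv_right hA'] at h2
    exact h2
  have h2 : (A.comp A'.inverse).det = A.det * A'.inverse.det := by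
    simp only [ContinuousLinearMap.det]
    exact LinearMap.det_comp _ _
  have h3 := Pool.Agent.Y183.QR.Loc.det_inv hA'
  have h4 : A.det = (A.comp A'.inverse).det * A'.det := by
    rw [h2, mul_assoc, mul_comm A'.inverse.det, h3, mul_one]
  rw [h4, abs_mul]
  exact mul_le_mul_of_nonneg_right h1 (abs_nonneg _)

section

variable {M : Type} [MetricSpace M] [CompactSpace M] [MeasurableSpace M] [BorelSpace M]
  {D : Data M} {A A' : Fin D.N → ℂ → ℂ →L[ℝ] ℂ} {μ μ' : Measure M}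

theorem gr_cmp (hD : (recf D A).IsSurf μ) (hD' : (recf D A').IsSurf μ') {κ : ℝ} (hκ : 0 ≤ κ)
    (h : Cmp D A A' κ) (F : M → ℝ) (x : M) :
    ‖(recf D A').gr F x‖ ≤ κ * ‖(recf D A).gr F x‖ := by
  obtain ⟨i, hi⟩ := Pool.Agent.Y708.QE.pc_ex hD x
  have hi' : x ∈ (recf D A').pc i := hi
  rw [Pool.Agent.Y708.QE.gr_eq hi, Pool.Agent.Y708.QE.gr_eq hi']
  have hx : D.φ i x ∈ D.T i := ⟨x, hi.1, rfl⟩
  exact grd_cmp (hD.det i _ hx) (hD'.det i _ hx) hκ (fun v => h i _ hx v) _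

theorem meas_piece (hD : (recf D A).IsSurf μ) (hD' : (recf D A').IsSurf μ') {κ : ℝ} (hκ : 0 ≤ κ)
    (h : Cmp D A A' κ) (i : Fin D.N) {B : Set M} (hB : MeasurableSet B) (hBU : B ⊆ D.U i) :
    μ B ≤ ENNReal.ofReal (κ ^ 2) * μ' B := by
  have key : ∀ (A₀ : Fin D.N → ℂ → ℂ →L[ℝ] ℂ) (ν : Measure M), (recf D A₀).IsSurf ν →
      ν B = ∫⁻ z in D.T i, B.indicator 1 (D.ψ i z) * ENNReal.ofReal |(A₀ i z).det| := by
    intro A₀ ν hν
    have h1 := (tInt M ν (recf D A₀) hν i).1 (B.indicator 1) (measurable_one.indicator hB)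
    rw [lintegral_indicator_one hB, Measure.restrict_apply hB] at h1
    have h2 : B ∩ (recf D A₀).U i = B := Set.inter_eq_left.2 hBU
    rw [h2] at h1
    exact h1
  rw [key A μ hD, key A' μ' hD', ← lintegral_const_mul' _ _ ENNReal.ofReal_ne_top]
  have hT : MeasurableSet (D.T i) := (hD.openT i).measurableSet
  refine setLIntegral_mono' hT fun z hz => ?_
  have h2 : ENNReal.ofReal |(A i z).det| ≤
      ENNReal.ofReal (κ ^ 2) * ENNReal.ofReal |(A' i z).det| := by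
    rw [← ENNReal.ofReal_mul (by positivity)]
    exact ENNReal.ofReal_le_ofReal (det_cmp (hD'.det i z hz) hκ (fun v => h i z hz v))
  calc B.indicator 1 (D.ψ i z) * ENNReal.ofReal |(A i z).det| ≤
      B.indicator 1 (D.ψ i z) * (ENNReal.ofReal (κ ^ 2) * ENNReal.ofReal |(A' i z).det|) := by
        gcongr
    _ = ENNReal.ofReal (κ ^ 2) * (B.indicator 1 (D.ψ i z) * ENNReal.ofReal |(A' i z).det|) := by
        ring

theorem meas_cmp (hD : (recf D A).IsSurf μ) (hD' : (recf D A').IsSurf μ') {κ : ℝ} (hκ : 0 ≤ κ)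
    (h : Cmp D A A' κ) : μ ≤ ENNReal.ofReal (κ ^ 2) • μ' := by
  refine Measure.le_iff.2 fun B hB => ?_
  rw [Measure.smul_apply, smul_eq_mul]
  have hm : ∀ i : Fin D.N, MeasurableSet (B ∩ D.pc i) := fun i =>
    hB.inter (Pool.Agent.Y708.QE.pc_meas hD i)
  have hd : Pairwise (Function.onFun Disjoint fun i : Fin D.N => B ∩ D.pc i) := by
    intro i j hij
    refine Set.disjoint_left.2 fun x hx hx' => hij ?_
    exact Pool.Agent.Y708.QE.pc_disj (D := recf D A) hx.2 hx'.2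
  have hU : B = ⋃ i : Fin D.N, B ∩ D.pc i := by
    ext x
    simp only [Set.mem_iUnion, Set.mem_inter_iff]
    constructor
    · intro hx
      obtain ⟨i, hi⟩ := Pool.Agent.Y708.QE.pc_ex hD x
      exact ⟨i, hx, hi⟩
    · rintro ⟨i, hx, -⟩
      exact hx
  have key : ∀ ν : Measure M, ν B = ∑' i : Fin D.N, ν (B ∩ D.pc i) := by
    intro ν
    conv_lhs => rw [hU]
    exact measure_iUnion hd hm
  rw [key μ, key μ', ← ENNReal.tsum_mul_left]
  refine ENNReal.tsum_le_tsum fun i => ?_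
  exact meas_piece hD hD' hκ h i (hm i) fun x hx => hx.2.1

end

end Pool.Agent.Q93.BGS
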