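import Pool.Agent.Q93.BGS.M

/-!
# Comparison of the eigenvalues of two metrics
-/

set_option autoImplicit false
set_option linter.unusedSectionVars false

open Set Filter Topology MeasureTheory
open Pool.Agent.Y262.QE Pool.Agent.Y264.QR

noncomputable section

namespace Pool.Agent.Q93.BGS

section

variable {M : Type} [MetricSpace M] [CompactSpace M] [MeasurableSpace M] [BorelSpace M]
  {D : Data M} {A A' : Fin D.N → ℂ → ℂ →L[ℝ] ℂ} {μ μ' : Measure M}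

/-- `v` and `v'` come from the same `C¹` function -/
def Rel (D : Data M) (A A' : Fin D.N → ℂ → ℂ →L[ℝ] ℂ) (μ μ' : Measure M)
    (v : HF (recf D A) μ) (v' : HF (recf D A') μ') : Prop :=
  ∃ F : M → ℝ, (recf D A).C1 F ∧ (v.1.fst : M → ℝ) =ᵐ[μ] F ∧
    (v.1.snd : M → ℂ) =ᵐ[μ] (recf D A).gr F ∧ (v'.1.fst : M → ℝ) =ᵐ[μ'] F ∧
    (v'.1.snd : M → ℂ) =ᵐ[μ'] (recf D A').gr F

theorem gr_lin (hD : (recf D A).IsSurf μ) {F G : M → ℝ} (hF : (recf D A).C1 F)
    (hG : (recf D A).C1 G) (α β : ℝ) (x : M) :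
    (recf D A).gr (fun x => α * F x + β * G x) x =
      α • (recf D A).gr F x + β • (recf D A).gr G x :=
  ((tGr M μ (recf D A) hD).2.2 F G hF hG α β).2 x

theorem ae_lin (hD : (recf D A).IsSurf μ) {v w : HF (recf D A) μ} {F G : M → ℝ}
    (hF : (recf D A).C1 F) (hG : (recf D A).C1 G) (h1 : (v.1.fst : M → ℝ) =ᵐ[μ] F)
    (h2 : (v.1.snd : M → ℂ) =ᵐ[μ] (recf D A).gr F) (h3 : (w.1.fst : M → ℝ) =ᵐ[μ] G)
    (h4 : (w.1.snd : M → ℂ) =ᵐ[μ] (recf D A).gr G) (α β : ℝ) :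
    ((α • v + β • w).1.fst : M → ℝ) =ᵐ[μ] (fun x => α * F x + β * G x) ∧
    ((α • v + β • w).1.snd : M → ℂ) =ᵐ[μ] (recf D A).gr (fun x => α * F x + β * G x) := by
  constructor
  · have e : (α • v + β • w).1.fst = α • v.1.fst + β • w.1.fst := rfl
    rw [e]
    filter_upwards [Lp.coeFn_add (α • v.1.fst) (β • w.1.fst), Lp.coeFn_smul α v.1.fst,
      Lp.coeFn_smul β w.1.fst, h1, h3] with x e1 e2 e3 e4 e5
    rw [e1, Pi.add_apply, e2, e3, Pi.smul_apply, Pi.smul_apply, e4, e5, smul_eq_mul, smul_eq_mul]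
  · have e : (α • v + β • w).1.snd = α • v.1.snd + β • w.1.snd := rfl
    rw [e]
    filter_upwards [Lp.coeFn_add (α • v.1.snd) (β • w.1.snd), Lp.coeFn_smul α v.1.snd,
      Lp.coeFn_smul β w.1.snd, h2, h4] with x e1 e2 e3 e4 e5
    rw [e1, Pi.add_apply, e2, e3, Pi.smul_apply, Pi.smul_apply, e4, e5, gr_lin hD hF hG]

theorem rel_lin (hD : (recf D A).IsSurf μ) (hD' : (recf D A').IsSurf μ')
    {v w : HF (recf D A) μ} {v' w' : HF (recf D A') μ'} (h : Rel D A A' μ μ' v v')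
    (h' : Rel D A A' μ μ' w w') (α β : ℝ) :
    Rel D A A' μ μ' (α • v + β • w) (α • v' + β • w') := by
  obtain ⟨F, hF, f1, f2, f3, f4⟩ := h
  obtain ⟨G, hG, g1, g2, g3, g4⟩ := h'
  obtain ⟨a1, a2⟩ := ae_lin hD hF hG f1 f2 g1 g2 α β
  obtain ⟨b1, b2⟩ := ae_lin hD' (F := F) (G := G) hF hG f3 f4 g3 g4 α β
  exact ⟨_, ((tGr M μ (recf D A) hD).2.2 F G hF hG α β).1, a1, a2, b1, b2⟩

theorem rel_sum (hD : (recf D A).IsSurf μ) (hD' : (recf D A').IsSurf μ') {n : ℕ}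
    {v : Fin n → HF (recf D A) μ} {v' : Fin n → HF (recf D A') μ'}
    (h : ∀ l, Rel D A A' μ μ' (v l) (v' l)) (h0 : Rel D A A' μ μ' 0 0) (c : Fin n → ℝ) :
    Rel D A A' μ μ' (∑ l, c l • v l) (∑ l, c l • v' l) := by
  have key : ∀ s : Finset (Fin n), Rel D A A' μ μ' (∑ l ∈ s, c l • v l) (∑ l ∈ s, c l • v' l) := by
    intro s
    induction s using Finset.induction_on with
    | empty => simpa using h0
    | insert l s hl ih =>
      rw [Finset.sum_insert hl, Finset.sum_insert hl]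
      have h1 := rel_lin hD hD' (h l) ih (c l) 1
      rwa [one_smul, one_smul] at h1
  exact key _

theorem rel_norm (hD : (recf D A).IsSurf μ) (hD' : (recf D A').IsSurf μ') {κ : ℝ} (hκ : 0 ≤ κ)
    (h : Cmp D A A' κ) (h' : Cmp D A' A κ) {v : HF (recf D A) μ} {v' : HF (recf D A') μ'}
    (hr : Rel D A A' μ μ' v v') :
    ‖v'.1.snd‖ ^ 2 ≤ κ ^ 4 * ‖v.1.snd‖ ^ 2 ∧ ‖v.1.fst‖ ^ 2 ≤ κ ^ 2 * ‖v'.1.fst‖ ^ 2 := by
  obtain ⟨F, hF, f1, f2, f3, f4⟩ := hr
  have m1 : μ ≤ ENNReal.ofReal (κ ^ 2) • μ' := meas_cmp hD hD' hκ h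
  have m2 : μ' ≤ ENNReal.ofReal (κ ^ 2) • μ := meas_cmp hD' hD hκ h'
  have nC : ∀ (ν : Measure M) (w : Lp ℂ 2 ν), ‖w‖ ^ 2 = ∫ x, ‖w x‖ ^ 2 ∂ν := by
    intro ν w
    rw [← real_inner_self_eq_norm_sq, innC]
    refine integral_congr_ae (Eventually.of_forall fun x => ?_)
    exact real_inner_self_eq_norm_sq _
  obtain ⟨hf, -⟩ := tFin M μ _ hD
  obtain ⟨hf', -⟩ := tFin M μ' _ hD'
  obtain ⟨c1, g1, C, hC⟩ := (tGr M μ _ hD).1 F hF
  obtain ⟨-, g1', C', hC'⟩ := (tGr M μ' _ hD').1 F hF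
  have hC0 : ∀ x, ‖‖(recf D A).gr F x‖ ^ 2‖ ≤ C ^ 2 := fun x => by
    rw [norm_pow, norm_norm]
    exact pow_le_pow_left₀ (norm_nonneg _) (hC x) 2
  have hC0' : ∀ x, ‖‖(recf D A').gr F x‖ ^ 2‖ ≤ C' ^ 2 := fun x => by
    rw [norm_pow, norm_norm]
    exact pow_le_pow_left₀ (norm_nonneg _) (hC' x) 2
  have i1 : ∀ ν : Measure M, IsFiniteMeasure ν →
      Integrable (fun x => ‖(recf D A).gr F x‖ ^ 2) ν := fun ν _ =>
    Integrable.of_bound (g1.norm.pow_const 2).aestronglyMeasurable _ (Eventually.of_forall hC0)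
  have i1' : ∀ ν : Measure M, IsFiniteMeasure ν →
      Integrable (fun x => ‖(recf D A').gr F x‖ ^ 2) ν := fun ν _ =>
    Integrable.of_bound (g1'.norm.pow_const 2).aestronglyMeasurable _ (Eventually.of_forall hC0')
  have i2 : ∀ ν : Measure M, IsFiniteMeasure ν → Integrable (fun x => (F x) ^ 2) ν := fun ν _ =>
    (c1.pow 2).integrable_of_hasCompactSupport (HasCompactSupport.of_compactSpace _)
  have hfin : ∀ ν : Measure M, IsFiniteMeasure ν → IsFiniteMeasure (ENNReal.ofReal (κ ^ 2) • ν) :=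
    fun ν _ => Measure.smul_finite ν ENNReal.ofReal_ne_top
  have hk : (ENNReal.ofReal (κ ^ 2)).toReal = κ ^ 2 := ENNReal.toReal_ofReal (by positivity)
  constructor
  · have e1 : ‖v'.1.snd‖ ^ 2 = ∫ x, ‖(recf D A').gr F x‖ ^ 2 ∂μ' := by
      rw [nC]
      exact integral_congr_ae (f4.mono fun x hx => by simp only [hx])
    have e2 : ‖v.1.snd‖ ^ 2 = ∫ x, ‖(recf D A).gr F x‖ ^ 2 ∂μ := by
      rw [nC]
      exact integral_congr_ae (f2.mono fun x hx => by simp only [hx])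
    rw [e1, e2]
    calc ∫ x, ‖(recf D A').gr F x‖ ^ 2 ∂μ' ≤ ∫ x, κ ^ 2 * ‖(recf D A).gr F x‖ ^ 2 ∂μ' := by
          refine integral_mono (i1' μ' hf') ((i1 μ' hf').const_mul _) fun x => ?_
          have := gr_cmp hD hD' hκ h F x
          calc ‖(recf D A').gr F x‖ ^ 2 ≤ (κ * ‖(recf D A).gr F x‖) ^ 2 :=
                pow_le_pow_left₀ (norm_nonneg _) this 2
            _ = κ ^ 2 * ‖(recf D A).gr F x‖ ^ 2 := by ring
      _ ≤ ∫ x, κ ^ 2 * ‖(recf D A).gr F x‖ ^ 2 ∂(ENNReal.ofReal (κ ^ 2) • μ) := by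
          refine integral_mono_measure m2 (Eventually.of_forall fun x => by positivity) ?_
          exact (i1 _ (hfin μ hf)).const_mul _
      _ = κ ^ 4 * ∫ x, ‖(recf D A).gr F x‖ ^ 2 ∂μ := by
          rw [integral_smul_measure, integral_const_mul, hk, smul_eq_mul]
          ring
  · have e1 : ‖v.1.fst‖ ^ 2 = ∫ x, (F x) ^ 2 ∂μ := by
      rw [nsq]
      exact integral_congr_ae (f1.mono fun x hx => by simp only [hx])
    have e2 : ‖v'.1.fst‖ ^ 2 = ∫ x, (F x) ^ 2 ∂μ' := by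
      rw [nsq]
      exact integral_congr_ae (f3.mono fun x hx => by simp only [hx])
    rw [e1, e2]
    calc ∫ x, (F x) ^ 2 ∂μ ≤ ∫ x, (F x) ^ 2 ∂(ENNReal.ofReal (κ ^ 2) • μ') :=
          integral_mono_measure m1 (Eventually.of_forall fun x => sq_nonneg _)
            (i2 _ (hfin μ' hf'))
      _ = κ ^ 2 * ∫ x, (F x) ^ 2 ∂μ' := by
          rw [integral_smul_measure, hk, smul_eq_mul]

theorem gr_zero (hD : (recf D A).IsSurf μ) : (recf D A).gr (fun _ => (0 : ℝ)) = fun _ => 0 := by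
  funext x
  have := gr_lin hD (F := fun _ => (0 : ℝ)) (G := fun _ => 0) (fun i => contDiffOn_const)
    (fun i => contDiffOn_const) 0 0 x
  simpa using this

theorem rel_zero (hD : (recf D A).IsSurf μ) (hD' : (recf D A').IsSurf μ') :
    Rel D A A' μ μ' 0 0 := by
  refine ⟨fun _ => 0, fun i => contDiffOn_const, ?_, ?_, ?_, ?_⟩
  · exact Lp.coeFn_zero ℝ 2 μ
  · rw [gr_zero hD]
    exact Lp.coeFn_zero ℂ 2 μ
  · exact Lp.coeFn_zero ℝ 2 μ'
  · rw [gr_zero hD']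
    exact Lp.coeFn_zero ℂ 2 μ'

/-- approximation by pairs -/
theorem rel_approx (hD : (recf D A).IsSurf μ) (hD' : (recf D A').IsSurf μ') (e : HF (recf D A) μ)
    {δ : ℝ} (hδ : 0 < δ) : ∃ (v : HF (recf D A) μ) (v' : HF (recf D A') μ'),
      Rel D A A' μ μ' v v' ∧ ‖v - e‖ < δ := by
  obtain ⟨F, f, h1, h2⟩ := (tDenF M μ _ hD).2 e.1 e.2
  obtain ⟨k, hk⟩ := ((Metric.tendsto_nhds.1 h2) δ hδ).exists
  obtain ⟨v', hv', h3, h4⟩ := (tDenF M μ' _ hD').1 (F k) (h1 k).1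
  refine ⟨⟨f k, (h1 k).2.1⟩, ⟨v', hv'⟩, ⟨F k, (h1 k).1, (h1 k).2.2.1, (h1 k).2.2.2, h3, h4⟩, ?_⟩
  rw [dist_eq_norm] at hk
  exact hk

theorem fst_le (v : HF (recf D A) μ) : ‖v.1.fst‖ ≤ ‖v‖ := by
  have h := nrm (recf D A) μ v
  have h1 : 0 ≤ aa (recf D A) μ v v := by
    rw [aa_apply]
    exact real_inner_self_nonneg
  have h2 : ‖v.1.fst‖ ^ 2 ≤ ‖v‖ ^ 2 := by
    rw [h, ii_apply]
    linarith
  exact (pow_le_pow_iff_left₀ (norm_nonneg _) (norm_nonneg _) two_ne_zero).1 h2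

theorem snd_le (v : HF (recf D A) μ) : ‖v.1.snd‖ ≤ ‖v‖ := by
  have h := nrm (recf D A) μ v
  have h2 : ‖v.1.snd‖ ^ 2 ≤ ‖v‖ ^ 2 := by
    rw [h, aa_apply, real_inner_self_eq_norm_sq]
    have := sq_nonneg ‖ii (recf D A) μ v‖
    linarith
  exact (pow_le_pow_iff_left₀ (norm_nonneg _) (norm_nonneg _) two_ne_zero).1 h2

/-- the estimate for perturbed eigenvectors -/
theorem pert {a b : HF (recf D A) μ →L[ℝ] HF (recf D A) μ →L[ℝ] ℝ} {e : ℕ → HF (recf D A) μ}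
    {E : ℕ → ℝ} (hE : Eg a b e E) (ha : ∀ u v, a u v = inner ℝ u.1.snd v.1.snd)
    (hb : ∀ u v, b u v = inner ℝ u.1.fst v.1.fst) {n : ℕ} {v : Fin (n + 1) → HF (recf D A) μ}
    {δ : ℝ} (hv : ∀ l, ‖v l - e l‖ ≤ δ) (c : Fin (n + 1) → ℝ) :
    ‖(∑ l, c l • v l).1.snd‖ ≤ (Real.sqrt (E n) + (n + 1) * δ) * Real.sqrt (∑ l, (c l) ^ 2) ∧
    (1 - (n + 1) * δ) * Real.sqrt (∑ l, (c l) ^ 2) ≤ ‖(∑ l, c l • v l).1.fst‖ := by
  obtain ⟨S, hS⟩ : ∃ S : ℝ, S = ∑ l, (c l) ^ 2 := ⟨_, rfl⟩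
  obtain ⟨w, hw⟩ : ∃ w : HF (recf D A) μ, w = ∑ l, c l • e l := ⟨_, rfl⟩
  obtain ⟨V, hV⟩ : ∃ V : HF (recf D A) μ, V = ∑ l, c l • v l := ⟨_, rfl⟩
  have hS0 : 0 ≤ S := by rw [hS]; exact Finset.sum_nonneg fun l _ => sq_nonneg _
  have hbw : ∀ x, b w x = ∑ l, c l * b (e l) x := by
    intro x
    rw [hw, map_sum, _root_.sum_apply]
    exact Finset.sum_congr rfl fun i _ => by rw [map_smul, _root_.smul_apply, smul_eq_mul]
  have haw : ∀ x, a w x = ∑ l, c l * (E l * b (e l) x) := by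
    intro x
    rw [hw, map_sum, _root_.sum_apply]
    exact Finset.sum_congr rfl fun i _ => by
      rw [map_smul, _root_.smul_apply, smul_eq_mul, hE.eig]
  have hew : ∀ l : Fin (n + 1), b (e l) w = c l := by
    intro l
    rw [hw, map_sum]
    simp only [map_smul, smul_eq_mul, hE.orth]
    rw [Finset.sum_eq_single l]
    · simp
    · intro i _ hi
      have h1 : ¬ (l : ℕ) = (i : ℕ) := fun h => hi (Fin.ext h.symm)
      rw [if_neg h1, mul_zero]
    · intro h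
      exact absurd (Finset.mem_univ l) h
  have hb2 : ‖w.1.fst‖ ^ 2 = S := by
    rw [← real_inner_self_eq_norm_sq, ← hb, hbw, hS]
    exact Finset.sum_congr rfl fun l _ => by rw [hew, sq]
  have ha2 : ‖w.1.snd‖ ^ 2 ≤ E n * S := by
    rw [← real_inner_self_eq_norm_sq, ← ha, haw, hS, Finset.mul_sum]
    refine Finset.sum_le_sum fun l _ => ?_
    rw [hew]
    have h1 : E l ≤ E n := hE.mono (Nat.lt_succ_iff.1 l.2)
    nlinarith [sq_nonneg (c l)]
  have hEn : 0 ≤ E n := by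
    have h1 := hE.eig n (e n)
    rw [hE.orth, if_pos rfl, mul_one, ha] at h1
    rw [← h1]
    exact real_inner_self_nonneg
  have hdist : ‖V - w‖ ≤ (n + 1) * δ * Real.sqrt S := by
    rw [hV, hw, ← Finset.sum_sub_distrib]
    refine (norm_sum_le _ _).trans ?_
    calc ∑ l, ‖c l • v l - c l • e l‖ ≤ ∑ _l : Fin (n + 1), δ * Real.sqrt S := by
          refine Finset.sum_le_sum fun l _ => ?_
          rw [← smul_sub, norm_smul, Real.norm_eq_abs]
          have h1 : |c l| ≤ Real.sqrt S := by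
            refine Real.abs_le_sqrt ?_
            rw [hS]
            exact Finset.single_le_sum (f := fun l => (c l) ^ 2) (fun i _ => sq_nonneg _)
              (Finset.mem_univ l)
          calc |c l| * ‖v l - e l‖ ≤ Real.sqrt S * δ :=
                mul_le_mul h1 (hv l) (norm_nonneg _) (Real.sqrt_nonneg _)
            _ = δ * Real.sqrt S := mul_comm _ _
      _ = (n + 1) * δ * Real.sqrt S := by
          rw [Finset.sum_const, Finset.card_univ, Fintype.card_fin, nsmul_eq_mul]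
          push_cast
          ring
  have hf : ‖w.1.fst‖ = Real.sqrt S := by
    rw [← hb2, Real.sqrt_sq (norm_nonneg _)]
  have hg : ‖w.1.snd‖ ≤ Real.sqrt (E n) * Real.sqrt S := by
    rw [← Real.sqrt_mul hEn]
    exact Real.le_sqrt_of_sq_le ha2
  rw [← hS, ← hV]
  constructor
  · have h1 : ‖V.1.snd‖ ≤ ‖w.1.snd‖ + ‖(V - w).1.snd‖ := by
      have e1 : V.1.snd = w.1.snd + (V - w).1.snd := by
        have : (V - w).1.snd = V.1.snd - w.1.snd := rfl
        rw [this]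
        abel
      conv_lhs => rw [e1]
      exact norm_add_le _ _
    have h2 := snd_le (V - w)
    nlinarith
  · have h1 : ‖w.1.fst‖ ≤ ‖V.1.fst‖ + ‖(V - w).1.fst‖ := by
      have e1 : w.1.fst = V.1.fst - (V - w).1.fst := by
        have : (V - w).1.fst = V.1.fst - w.1.fst := rfl
        rw [this]
        abel
      conv_lhs => rw [e1]
      exact norm_sub_le _ _
    have h2 := fst_le (V - w)
    nlinarith

end

end Pool.Agent.Q93.BGS
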