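import Pool.Agent.Q93.BGS.N

/-!
# The unfolded levels are continuous functions of the metric
-/

set_option autoImplicit false
set_option linter.unusedSectionVars false

open Set Filter Topology MeasureTheory
open Pool.Agent.Y262.QE Pool.Agent.Y264.QR

noncomputable section

namespace Pool.Agent.Q93.BGS

section

variable {M : Type} [MetricSpace M] [CompactSpace M] [MeasurableSpace M] [BorelSpace M]
  {D : Data M} {A A' : Fin D.N → ℂ → ℂ →L[ℝ] ℂ} {μ μ' : Measure M}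

theorem ev_cmp (hD : (recf D A).IsSurf μ) (hD' : (recf D A').IsSurf μ') {κ : ℝ} (hκ : 0 ≤ κ)
    (h : Cmp D A A' κ) (h' : Cmp D A' A κ)
    {a b : HF (recf D A) μ →L[ℝ] HF (recf D A) μ →L[ℝ] ℝ} {e : ℕ → HF (recf D A) μ}
    {E : ℕ → ℝ} (hE : Eg a b e E) (ha : ∀ u v, a u v = inner ℝ u.1.snd v.1.snd)
    (hb : ∀ u v, b u v = inner ℝ u.1.fst v.1.fst)
    {a' b' : HF (recf D A') μ' →L[ℝ] HF (recf D A') μ' →L[ℝ] ℝ} {e' : ℕ → HF (recf D A') μ'}
    {E' : ℕ → ℝ} (hF' : Fm a' b') (hE' : Eg a' b' e' E')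
    (ha' : ∀ u v, a' u v = inner ℝ u.1.snd v.1.snd)
    (hb' : ∀ u v, b' u v = inner ℝ u.1.fst v.1.fst) (n : ℕ) :
    E' n ≤ κ ^ 6 * E n := by
  have hEn : 0 ≤ E n := by
    have h1 := hE.eig n (e n)
    rw [hE.orth, if_pos rfl, mul_one, ha] at h1
    rw [← h1]
    exact real_inner_self_nonneg
  have key : ∀ δ : ℝ, 0 < δ → (n + 1) * δ < 1 →
      E' n ≤ κ ^ 6 * (Real.sqrt (E n) + (n + 1) * δ) ^ 2 / (1 - (n + 1) * δ) ^ 2 := by
    intro δ hδ hδ1
    obtain ⟨p, hp⟩ : ∃ p : ℝ, p = Real.sqrt (E n) + (n + 1) * δ := ⟨_, rfl⟩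
    obtain ⟨q, hq⟩ : ∃ q : ℝ, q = 1 - (n + 1) * δ := ⟨_, rfl⟩
    have hq0 : 0 < q := by rw [hq]; linarith
    have hp0 : 0 ≤ p := by rw [hp]; positivity
    choose v v' hr hv using fun l : Fin (n + 1) => rel_approx (μ := μ) (μ' := μ') hD hD' (e l) hδ
    have hP := fun c : Fin (n + 1) → ℝ => pert hE ha hb (δ := δ) (fun l => (hv l).le) c
    have hR := fun c : Fin (n + 1) → ℝ => rel_norm hD hD' hκ h h'
      (rel_sum hD hD' hr (rel_zero hD hD') c)
    rw [← hp, ← hq]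
    have hli : LinearIndependent ℝ v' := by
      rw [Fintype.linearIndependent_iff]
      intro c hc
      have h1 := (hR c).2
      rw [hc] at h1
      have h2 : ‖(0 : HF (recf D A') μ').1.fst‖ = 0 := norm_zero
      rw [h2] at h1
      have h3 := (hP c).2
      rw [← hq] at h3
      have h4 : ‖(∑ l, c l • v l).1.fst‖ = 0 := by
        have h5 : ‖(∑ l, c l • v l).1.fst‖ ^ 2 ≤ 0 := by simpa using h1
        exact pow_eq_zero_iff (two_ne_zero) |>.1 (le_antisymm h5 (sq_nonneg _))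
      rw [h4] at h3
      have h5 : Real.sqrt (∑ l, (c l) ^ 2) = 0 := by
        have h6 := Real.sqrt_nonneg (∑ l, (c l) ^ 2)
        by_contra h7
        have h8 : 0 < Real.sqrt (∑ l, (c l) ^ 2) := lt_of_le_of_ne h6 (Ne.symm h7)
        have := mul_pos hq0 h8
        linarith
      have h6 : ∑ l, (c l) ^ 2 = 0 := by
        have h7 : 0 ≤ ∑ l, (c l) ^ 2 := Finset.sum_nonneg fun l _ => sq_nonneg _
        exact (Real.sqrt_eq_zero h7).1 h5
      intro i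
      have h7 := (Finset.sum_eq_zero_iff_of_nonneg fun l _ => sq_nonneg (c l)).1 h6 i
        (Finset.mem_univ i)
      exact pow_eq_zero_iff (two_ne_zero) |>.1 h7
    have hHD : HD a' b' (κ ^ 6 * p ^ 2 / q ^ 2) n := by
      refine ⟨Submodule.span ℝ (Set.range v'), ?_, ?_⟩
      · rw [finrank_span_eq_card hli, Fintype.card_fin]
      · intro w hw
        obtain ⟨c, rfl⟩ := (Submodule.mem_span_range_iff_exists_fun ℝ).1 hw
        obtain ⟨r1, r2⟩ := hR c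
        obtain ⟨p1, p2⟩ := hP c
        rw [← hp] at p1
        rw [← hq] at p2
        rw [ha', hb', real_inner_self_eq_norm_sq, real_inner_self_eq_norm_sq]
        have s0 := Real.sqrt_nonneg (∑ l, (c l) ^ 2)
        have h1 : q * ‖(∑ l, c l • v l).1.snd‖ ≤ p * ‖(∑ l, c l • v l).1.fst‖ := by
          calc q * ‖(∑ l, c l • v l).1.snd‖ ≤ q * (p * Real.sqrt (∑ l, (c l) ^ 2)) :=
                mul_le_mul_of_nonneg_left p1 hq0.le
            _ = p * (q * Real.sqrt (∑ l, (c l) ^ 2)) := by ring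
            _ ≤ p * ‖(∑ l, c l • v l).1.fst‖ := mul_le_mul_of_nonneg_left p2 hp0
        have h2 : q ^ 2 * ‖(∑ l, c l • v l).1.snd‖ ^ 2 ≤
            p ^ 2 * ‖(∑ l, c l • v l).1.fst‖ ^ 2 := by
          rw [← mul_pow, ← mul_pow]
          exact pow_le_pow_left₀ (by positivity) h1 2
        rw [div_mul_eq_mul_div, le_div_iff₀ (by positivity)]
        calc ‖(∑ l, c l • v' l).1.snd‖ ^ 2 * q ^ 2 ≤
            (κ ^ 4 * ‖(∑ l, c l • v l).1.snd‖ ^ 2) * q ^ 2 :=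
              mul_le_mul_of_nonneg_right r1 (sq_nonneg _)
          _ = κ ^ 4 * (q ^ 2 * ‖(∑ l, c l • v l).1.snd‖ ^ 2) := by ring
          _ ≤ κ ^ 4 * (p ^ 2 * ‖(∑ l, c l • v l).1.fst‖ ^ 2) :=
              mul_le_mul_of_nonneg_left h2 (by positivity)
          _ ≤ κ ^ 4 * (p ^ 2 * (κ ^ 2 * ‖(∑ l, c l • v' l).1.fst‖ ^ 2)) := by
              gcongr
          _ = κ ^ 6 * p ^ 2 * ‖(∑ l, c l • v' l).1.fst‖ ^ 2 := by ring
    have hmm : Ev a' b' n = E' n := Pool.Agent.Y592.QE.mm _ a' b' hF' e' E' hE' n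
    rw [← hmm]
    exact csInf_le ⟨0, fun x hx => hx.1⟩ ⟨by positivity, hHD⟩
  have hlim : Tendsto (fun δ : ℝ => κ ^ 6 * (Real.sqrt (E n) + (n + 1) * δ) ^ 2 /
      (1 - (n + 1) * δ) ^ 2) (𝓝[>] 0) (𝓝 (κ ^ 6 * E n)) := by
    have h1 : ContinuousAt (fun δ : ℝ => κ ^ 6 * (Real.sqrt (E n) + (n + 1) * δ) ^ 2 /
      (1 - (n + 1) * δ) ^ 2) 0 := by
      refine ContinuousAt.div (by fun_prop) (by fun_prop) ?_
      simp
    have h2 := h1.tendsto
    simp only [mul_zero, add_zero, sub_zero, one_pow, div_one, Real.sq_sqrt hEn] at h2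
    exact h2.mono_left nhdsWithin_le_nhds
  refine ge_of_tendsto hlim ?_
  have h1 : ∀ᶠ δ : ℝ in 𝓝[>] 0, (n + 1) * δ < 1 := by
    have h2 : Tendsto (fun δ : ℝ => ((n : ℝ) + 1) * δ) (𝓝[>] 0) (𝓝 (((n : ℝ) + 1) * 0)) :=
      (tendsto_id.const_mul _).mono_left nhdsWithin_le_nhds
    rw [mul_zero] at h2
    exact h2.eventually_lt_const one_pos
  filter_upwards [h1, self_mem_nhdsWithin] with δ h2 h3
  exact key δ h3 h2

theorem conf_one (D₁ : Data M) : (D₁.conf fun x => Real.exp ((0 : C(M, ℝ)) x)) = D₁ := by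
  cases D₁
  simp [Data.conf]

theorem wm_one (ν : Measure M) : (wm ν fun x => Real.exp ((0 : C(M, ℝ)) x)) = ν := by
  unfold wm
  simp

/-- the forms of a surface -/
theorem pack [Nonempty M] {D₁ : Data M} {ν : Measure M} (hD : D₁.IsSurf ν) :
    (∃ (u : ℕ → M → ℝ) (lam : ℕ → ℝ), EigBasis D₁ ν u lam) ∧
    ∃ a b : HF D₁ ν →L[ℝ] HF D₁ ν →L[ℝ] ℝ, Fm a b ∧
      (∀ u v, a u v = inner ℝ u.1.snd v.1.snd) ∧ (∀ u v, b u v = inner ℝ u.1.fst v.1.fst) ∧
      ∀ (u : ℕ → M → ℝ) (lam : ℕ → ℝ), EigBasis D₁ ν u lam → ∃ e : ℕ → HF D₁ ν, Eg a b e lam := by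
  obtain ⟨hf, -⟩ := tFin M ν D₁ hD
  have := hf
  obtain ⟨i, a, hSf, hi, ha⟩ := tPackF M ν D₁ hD inferInstance
  obtain ⟨b, hB, hF, -, -, -⟩ := tFm M ν (HF D₁ ν) i a hSf
  refine ⟨?_, a, b 0, hF 0, ha, fun u v => ?_, fun u lam hu => ?_⟩
  · obtain ⟨u, lam, h⟩ := tEx M ν D₁ hD inferInstance 0
    rw [conf_one, wm_one] at h
    exact ⟨u, lam, h⟩
  · rw [hB, ← hi, ← hi, inn]
    simp
  · obtain ⟨e, -, he⟩ := tBr M ν D₁ hD i a b hSf hi ha hB hF 0 u lam (by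
      rw [conf_one, wm_one]
      exact hu)
    exact ⟨e, he⟩

theorem area_pos [Nonempty M] {D₁ : Data M} {ν : Measure M} (hD : D₁.IsSurf ν) :
    0 < ν.real univ := by
  obtain ⟨hf, hp⟩ := tFin M ν D₁ hD
  have := hf
  rw [measureReal_def]
  exact ENNReal.toReal_pos (hp univ isOpen_univ univ_nonempty).ne' (measure_ne_top _ _)

theorem area_cmp (hD : (recf D A).IsSurf μ) (hD' : (recf D A').IsSurf μ') {κ : ℝ} (hκ : 0 ≤ κ)
    (h : Cmp D A A' κ) : μ.real univ ≤ κ ^ 2 * μ'.real univ := by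
  obtain ⟨hf, -⟩ := tFin M μ _ hD
  obtain ⟨hf', -⟩ := tFin M μ' _ hD'
  have h1 := meas_cmp hD hD' hκ h univ
  rw [Measure.smul_apply, smul_eq_mul] at h1
  have h2 := ENNReal.toReal_mono (ENNReal.mul_ne_top ENNReal.ofReal_ne_top (measure_ne_top μ' univ)) h1
  rwa [ENNReal.toReal_mul, ENNReal.toReal_ofReal (by positivity)] at h2

/-- comparison of the unfolded levels -/
theorem level_cmp [Nonempty M] (hD : (recf D A).IsSurf μ) (hD' : (recf D A').IsSurf μ') {κ : ℝ}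
    (hκ : 0 ≤ κ) (h : Cmp D A A' κ) (h' : Cmp D A' A κ) {u u' : ℕ → M → ℝ} {lam lam' : ℕ → ℝ}
    (hu : EigBasis (recf D A) μ u lam) (hu' : EigBasis (recf D A') μ' u' lam') (n : ℕ) :
    μ'.real univ * lam' n / (4 * Real.pi) ≤ κ ^ 8 * (μ.real univ * lam n / (4 * Real.pi)) := by
  obtain ⟨-, a, b, hF, ha, hb, hbr⟩ := pack hD
  obtain ⟨-, a', b', hF', ha', hb', hbr'⟩ := pack hD'
  obtain ⟨e, he⟩ := hbr u lam hu
  obtain ⟨e', he'⟩ := hbr' u' lam' hu'
  have h1 := ev_cmp hD hD' hκ h h' he ha hb hF' he' ha' hb' n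
  have h2 := area_cmp hD' hD hκ h'
  have hEn : 0 ≤ lam' n := by
    have h1 := he'.eig n (e' n)
    rw [he'.orth, if_pos rfl, mul_one, ha'] at h1
    rw [← h1]
    exact real_inner_self_nonneg
  have hπ := Real.pi_pos
  have h3 : 0 ≤ μ.real univ := measureReal_nonneg
  have h4 : μ'.real univ * lam' n ≤ κ ^ 8 * (μ.real univ * lam n) := by
    calc μ'.real univ * lam' n ≤ (κ ^ 2 * μ.real univ) * (κ ^ 6 * lam n) :=
          mul_le_mul h2 h1 hEn (by positivity)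
      _ = κ ^ 8 * (μ.real univ * lam n) := by ring
  calc μ'.real univ * lam' n / (4 * Real.pi) ≤ κ ^ 8 * (μ.real univ * lam n) / (4 * Real.pi) := by
        gcongr
    _ = κ ^ 8 * (μ.real univ * lam n / (4 * Real.pi)) := by ring

theorem cont_of_ratio {B : Type} [TopologicalSpace B] {f : B → ℝ} (h0 : ∀ b, 0 ≤ f b)
    (h : ∀ b κ, 1 < κ → ∀ᶠ b' in 𝓝 b, f b' ≤ κ ^ 8 * f b ∧ f b ≤ κ ^ 8 * f b') : Continuous f := by
  rw [continuous_iff_continuousAt]
  intro b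
  rw [ContinuousAt, Metric.tendsto_nhds]
  intro ε hε
  have h1 : Tendsto (fun κ : ℝ => (κ ^ 8 - 1) * f b) (𝓝[>] 1) (𝓝 ((1 ^ 8 - 1) * f b)) := by
    have h2 : Continuous fun κ : ℝ => (κ ^ 8 - 1) * f b := by fun_prop
    exact (h2.tendsto 1).mono_left nhdsWithin_le_nhds
  rw [one_pow, sub_self, zero_mul] at h1
  obtain ⟨κ, h2, h3⟩ := ((h1.eventually_lt_const hε).and self_mem_nhdsWithin).exists
  have h3' : (1 : ℝ) < κ := h3
  filter_upwards [h b κ h3'] with b' hb'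
  have hk : 1 ≤ κ ^ 8 := one_le_pow₀ h3'.le
  have hfb := h0 b
  have hfb' := h0 b'
  rw [Real.dist_eq, abs_lt]
  constructor
  · by_contra hcon
    rw [not_lt] at hcon
    have h4 : f b' ≤ f b := by linarith
    have h5 : (κ ^ 8 - 1) * f b' ≤ (κ ^ 8 - 1) * f b :=
      mul_le_mul_of_nonneg_left h4 (by linarith)
    linarith [hb'.2]
  · linarith [hb'.1]

/-- the unfolded levels of a continuous family of metrics -/
theorem levels_family [Nonempty M] {B : Type} [TopologicalSpace B]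
    {A : B → Fin D.N → ℂ → ℂ →L[ℝ] ℂ} {μ : B → Measure M}
    (hS : ∀ b, (recf D (A b)).IsSurf (μ b))
    (hA : ∀ (b : B) (κ : ℝ), 1 < κ → ∀ᶠ b' in 𝓝 b,
      Cmp D (A b) (A b') κ ∧ Cmp D (A b') (A b) κ)
    {u : B → ℕ → M → ℝ} {lam : B → ℕ → ℝ}
    (hu : ∀ b, EigBasis (recf D (A b)) (μ b) (u b) (lam b)) {x : B → ℕ → ℝ}
    (hx : ∀ b k, x b k = (μ b).real univ * lam b k / (4 * Real.pi)) :
    (∀ k, Continuous fun b => x b k) ∧ (∀ b, Monotone (x b)) ∧ ∀ b, Tendsto (x b) atTop atTop := by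
  have hπ := Real.pi_pos
  have h0 : ∀ b k, 0 ≤ x b k := by
    intro b k
    obtain ⟨-, a, b', hF, ha, hb, hbr⟩ := pack (hS b)
    obtain ⟨e, he⟩ := hbr _ _ (hu b)
    have h1 := he.eig k (e k)
    rw [he.orth, if_pos rfl, mul_one, ha] at h1
    have h2 : 0 ≤ lam b k := by
      rw [← h1]
      exact real_inner_self_nonneg
    rw [hx]
    have h3 : 0 ≤ (μ b).real univ := measureReal_nonneg
    positivity
  refine ⟨fun k => cont_of_ratio (fun b => h0 b k) fun b κ hκ => ?_, fun b k k' hk => ?_,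
    fun b => ?_⟩
  · filter_upwards [hA b κ hκ] with b' hb'
    have hκ0 : (0 : ℝ) ≤ κ := by linarith
    constructor
    · rw [hx, hx]
      exact level_cmp (hS b) (hS b') hκ0 hb'.1 hb'.2 (hu b) (hu b') k
    · rw [hx, hx]
      exact level_cmp (hS b') (hS b) hκ0 hb'.2 hb'.1 (hu b') (hu b) k
  · rw [hx, hx]
    have h1 := (hu b).mono hk
    have h2 : 0 ≤ (μ b).real univ := measureReal_nonneg
    gcongr
  · obtain ⟨-, a, b', hF, ha, hb, hbr⟩ := pack (hS b)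
    obtain ⟨e, he⟩ := hbr _ _ (hu b)
    have h1 := area_pos (hS b)
    have h2 := he.tt.const_mul_atTop (show 0 < (μ b).real univ / (4 * Real.pi) by positivity)
    refine h2.congr fun k => ?_
    rw [hx]
    ring

end

end Pool.Agent.Q93.BGS
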